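import Mathlib

open Filter Topology

namespace Pool.Agent.Results.MP_514f39_an.NoPermutedBasis

variable {𝕜 : Type} [RCLike 𝕜]

/-- Greedy rearrangement in an inner product space: starting at `p`, the vectors `u i`, `i ∈ S`,
can be enumerated so that all partial sums stay bounded. -/
theorem greedy {V : Type} [NormedAddCommGroup V] [InnerProductSpace 𝕜 V] {ι : Type}
    [DecidableEq ι] (u : ι → V) (s : V) (M B : ℝ) :
    ∀ (m : ℕ) (S : Finset ι) (p : V), S.card = m → p + ∑ i ∈ S, u i = s →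
      (∀ i ∈ S, ‖u i‖ ≤ M) → ‖p‖ ^ 2 + ∑ i ∈ S, ‖u i‖ ^ 2 ≤ B →
      (‖s‖ + M) ^ 2 + ∑ i ∈ S, ‖u i‖ ^ 2 ≤ B →
      ∃ l : List ι, l.Nodup ∧ l.toFinset = S ∧
        ∀ n, ‖p + ((l.take n).map u).sum‖ ^ 2 ≤ B := by
  intro m
  induction m with
  | zero =>
    intro S p hS _ _ hB _
    rw [Finset.card_eq_zero] at hS
    subst hS
    refine ⟨[], List.nodup_nil, rfl, fun n => ?_⟩
    simpa using hB
  | succ m ih =>
    intro S p hS hs hM hB hB2
    have hex : ∃ i ∈ S, ‖p + u i‖ ^ 2 + ∑ j ∈ S.erase i, ‖u j‖ ^ 2 ≤ B := by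
      by_cases hps : ‖s‖ ≤ ‖p‖
      · -- some `i` with nonpositive inner product
        have hinner : ∑ i ∈ S, RCLike.re (inner 𝕜 p (u i)) ≤ 0 := by
          rw [← map_sum, ← inner_sum]
          have h1 : ∑ i ∈ S, u i = s - p := by rw [← hs]; abel
          rw [h1, inner_sub_right, map_sub]
          have h2 : RCLike.re (inner 𝕜 p s) ≤ ‖p‖ * ‖s‖ := re_inner_le_norm p s
          have h3 : RCLike.re (inner 𝕜 p p) = ‖p‖ ^ 2 := by
            rw [inner_self_eq_norm_sq]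
          rw [h3]
          nlinarith [norm_nonneg p, norm_nonneg s]
        have hne : S.Nonempty := by
          rw [← Finset.card_pos, hS]; omega
        obtain ⟨i, hi, hi2⟩ := Finset.exists_le_of_sum_le hne
          (show ∑ i ∈ S, RCLike.re (inner 𝕜 p (u i)) ≤ ∑ i ∈ S, (0:ℝ) by simpa using hinner)
        refine ⟨i, hi, ?_⟩
        rw [norm_add_sq (𝕜 := 𝕜)]
        rw [← Finset.add_sum_erase S _ hi] at hB
        linarith
      · push Not at hps
        have hne : S.Nonempty := by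
          rw [← Finset.card_pos, hS]; omega
        obtain ⟨i, hi⟩ := hne
        refine ⟨i, hi, ?_⟩
        rw [← Finset.add_sum_erase S _ hi] at hB2
        have h1 : ‖p + u i‖ ≤ ‖s‖ + M := (norm_add_le _ _).trans (by linarith [hM i hi])
        have h2 : ‖p + u i‖ ^ 2 ≤ (‖s‖ + M) ^ 2 := by
          gcongr
        nlinarith [sq_nonneg ‖u i‖]
    obtain ⟨i, hi, hi2⟩ := hex
    have hB3 : (‖s‖ + M) ^ 2 + ∑ j ∈ S.erase i, ‖u j‖ ^ 2 ≤ B := by
      rw [← Finset.add_sum_erase S _ hi] at hB2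
      nlinarith [sq_nonneg ‖u i‖]
    obtain ⟨l, hl1, hl2, hl3⟩ := ih (S.erase i) (p + u i)
      (by rw [Finset.card_erase_of_mem hi, hS]; rfl)
      (by rw [← hs, ← Finset.add_sum_erase S _ hi]; abel)
      (fun j hj => hM j (Finset.mem_of_mem_erase hj)) hi2 hB3
    refine ⟨i :: l, ?_, ?_, ?_⟩
    · rw [List.nodup_cons]
      refine ⟨fun h => ?_, hl1⟩
      have : i ∈ S.erase i := by rw [← hl2]; exact List.mem_toFinset.2 h
      exact Finset.notMem_erase i S this
    · rw [List.toFinset_cons, hl2, Finset.insert_erase hi]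
    · intro n
      cases n with
      | zero =>
        have : 0 ≤ ∑ i ∈ S, ‖u i‖ ^ 2 := Finset.sum_nonneg (fun _ _ => sq_nonneg _)
        simp only [List.take_zero, List.map_nil, List.sum_nil, add_zero]
        linarith
      | succ n =>
        rw [List.take_succ_cons, List.map_cons, List.sum_cons, ← add_assoc]
        exact hl3 n

/-- `(x n)` is a Schauder basis: unique norm-convergent expansions. -/
def IsSchauderBasis (𝕜 : Type) [RCLike 𝕜] {E : Type} [NormedAddCommGroup E] [NormedSpace 𝕜 E]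
    (x : ℕ → E) : Prop :=
  ∀ v : E, ∃! a : ℕ → 𝕜, Tendsto (fun N => ∑ n ∈ Finset.range N, a n • x n) atTop (𝓝 v)

/-- Property (U). -/
def PropertyU (𝕜 : Type) [RCLike 𝕜] {E : Type} [NormedAddCommGroup E] [NormedSpace 𝕜 E]
    (x : ℕ → E) : Prop :=
  ∀ v : E,
    (∃ (a : ℕ → 𝕜) (σ : Equiv.Perm ℕ),
      Tendsto (fun N => ∑ i ∈ Finset.range N, a (σ i) • x (σ i)) atTop (𝓝 v)) ∧
    ∀ (a b : ℕ → 𝕜) (σ π : Equiv.Perm ℕ),
      Tendsto (fun N => ∑ i ∈ Finset.range N, a (σ i) • x (σ i)) atTop (𝓝 v) →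
      Tendsto (fun N => ∑ i ∈ Finset.range N, b (π i) • x (π i)) atTop (𝓝 v) → b = a

/-- Minimality: no `x m` lies in the closed linear span of the others. -/
def IsMinimal (𝕜 : Type) [RCLike 𝕜] {E : Type} [NormedAddCommGroup E] [NormedSpace 𝕜 E]
    (x : ℕ → E) : Prop :=
  ∀ m, x m ∉ closure (Submodule.span 𝕜 (x '' {n | n ≠ m}) : Set E)

/-! ### The space -/

abbrev H (𝕜 : Type) [RCLike 𝕜] : Type := lp (fun _ : ℕ ⊕ ℕ => 𝕜) 2

/-- The `k`-th block of indices. -/
def block (k : ℕ) : Finset ℕ := Finset.Ico (k * k) ((k + 1) * (k + 1))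

theorem mem_block {k n : ℕ} : n ∈ block k ↔ Nat.sqrt n = k := by
  rw [block, Finset.mem_Ico, ← Nat.eq_sqrt, eq_comm]

theorem card_block (k : ℕ) : (block k).card = 2 * k + 1 := by
  rw [block, Nat.card_Ico]
  have : (k + 1) * (k + 1) = k * k + (2 * k + 1) := by ring
  omega

noncomputable def ev (𝕜 : Type) [RCLike 𝕜] (i : ℕ ⊕ ℕ) : H 𝕜 →L[𝕜] 𝕜 :=
  lp.evalCLM 𝕜 (fun _ : ℕ ⊕ ℕ => 𝕜) 2 i

theorem ev_apply (i : ℕ ⊕ ℕ) (v : H 𝕜) : ev 𝕜 i v = v i := rfl

noncomputable def xv (𝕜 : Type) [RCLike 𝕜] (n : ℕ) : H 𝕜 :=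
  lp.single 2 (Sum.inl n) (1 : 𝕜) + lp.single 2 (Sum.inr (Nat.sqrt n)) (1 : 𝕜)

theorem ev_xv_inl (m n : ℕ) : ev 𝕜 (Sum.inl m) (xv 𝕜 n) = if m = n then 1 else 0 := by
  rw [ev_apply, xv, lp.coeFn_add, Pi.add_apply, lp.single_apply, lp.single_apply,
    Pi.single_apply, Pi.single_apply]
  simp

theorem ev_xv_inr (k n : ℕ) : ev 𝕜 (Sum.inr k) (xv 𝕜 n) = if k = Nat.sqrt n then 1 else 0 := by
  rw [ev_apply, xv, lp.coeFn_add, Pi.add_apply, lp.single_apply, lp.single_apply,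
    Pi.single_apply, Pi.single_apply]
  simp

theorem norm_xv_le (n : ℕ) : ‖xv 𝕜 n‖ ≤ 2 := by
  refine (norm_add_le _ _).trans ?_
  rw [lp.norm_single (by simp), lp.norm_single (by simp)]
  norm_num

/-- The Hilbert space of the example, a closed subspace of `ℓ²`. -/
noncomputable def E (𝕜 : Type) [RCLike 𝕜] : Submodule 𝕜 (H 𝕜) :=
  ⨅ k, LinearMap.ker (ev 𝕜 (Sum.inr k) - ∑ n ∈ block k, ev 𝕜 (Sum.inl n)).toLinearMap

theorem mem_E (v : H 𝕜) :
    v ∈ E 𝕜 ↔ ∀ k, ev 𝕜 (Sum.inr k) v = ∑ n ∈ block k, ev 𝕜 (Sum.inl n) v := by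
  simp [E, Submodule.mem_iInf, sub_eq_zero]

theorem isClosed_E : IsClosed (E 𝕜 : Set (H 𝕜)) := by
  have : (E 𝕜 : Set (H 𝕜)) = ⋂ k, {v | ev 𝕜 (Sum.inr k) v = ∑ n ∈ block k, ev 𝕜 (Sum.inl n) v} := by
    ext x
    simp [mem_E]
  rw [this]
  refine isClosed_iInter (fun k => isClosed_eq (ev 𝕜 _).continuous ?_)
  exact continuous_finsetSum _ (fun n _ => (ev 𝕜 _).continuous)

theorem xv_mem_E (n : ℕ) : xv 𝕜 n ∈ E 𝕜 := by
  rw [mem_E]
  intro k
  rw [ev_xv_inr]
  simp only [ev_xv_inl]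
  rw [Finset.sum_ite_eq']
  simp only [mem_block]
  by_cases h : k = Nat.sqrt n
  · simp [h]
  · rw [if_neg h, if_neg (fun h' => h h'.symm)]

noncomputable def x (𝕜 : Type) [RCLike 𝕜] (n : ℕ) : E 𝕜 := ⟨xv 𝕜 n, xv_mem_E n⟩

/-! ### Convergence of the block partial sums -/

theorem sum_range_succ_sq {V : Type} [AddCommMonoid V] (f : ℕ → V) (K : ℕ) :
    ∑ n ∈ Finset.range ((K + 1) * (K + 1)), f n
      = ∑ n ∈ Finset.range (K * K), f n + ∑ n ∈ block K, f n := by
  rw [block, Finset.sum_range_add_sum_Ico]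
  nlinarith

theorem partial_eq (v : H 𝕜) (hv : v ∈ E 𝕜) (K : ℕ) :
    ∑ n ∈ Finset.range (K * K), ev 𝕜 (Sum.inl n) v • xv 𝕜 n
      = ∑ i ∈ (Finset.range (K * K)).disjSum (Finset.range K), lp.single 2 i (v i) := by
  have hsm : ∀ (i : ℕ ⊕ ℕ) (c : 𝕜), c • lp.single (E := fun _ : ℕ ⊕ ℕ => 𝕜) 2 i (1 : 𝕜)
      = lp.single 2 i c := by
    intro i c
    rw [← lp.single_smul]
    simp
  rw [Finset.sum_disjSum]
  have h1 : ∀ n, ev 𝕜 (Sum.inl n) v • xv 𝕜 n
      = lp.single 2 (Sum.inl n) (v (Sum.inl n))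
        + ev 𝕜 (Sum.inl n) v • lp.single 2 (Sum.inr (Nat.sqrt n)) (1 : 𝕜) := by
    intro n
    rw [xv, smul_add, hsm, ev_apply]
  simp only [h1, Finset.sum_add_distrib]
  congr 1
  induction K with
  | zero => simp
  | succ K ih =>
    rw [sum_range_succ_sq, ih, Finset.sum_range_succ]
    congr 1
    have h2 : ∀ n ∈ block K, ev 𝕜 (Sum.inl n) v • lp.single (E := fun _ : ℕ ⊕ ℕ => 𝕜) 2
        (Sum.inr (Nat.sqrt n)) (1 : 𝕜)
        = ev 𝕜 (Sum.inl n) v • lp.single 2 (Sum.inr K) (1 : 𝕜) := by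
      intro n hn
      rw [mem_block.1 hn]
    rw [Finset.sum_congr rfl h2, ← Finset.sum_smul, hsm, ← (mem_E v).1 hv K, ev_apply]

theorem tendsto_blocks (v : H 𝕜) (hv : v ∈ E 𝕜) :
    Tendsto (fun K : ℕ => ∑ n ∈ Finset.range (K * K), ev 𝕜 (Sum.inl n) v • xv 𝕜 n)
      atTop (𝓝 v) := by
  simp only [partial_eq v hv]
  have h := lp.hasSum_single (p := 2) (by simp) v
  refine h.comp ?_
  refine Monotone.tendsto_atTop_finset ?_ ?_
  · intro a b hab
    refine Finset.disjSum_mono ?_ ?_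
    · exact Finset.range_mono (Nat.mul_le_mul hab hab)
    · exact Finset.range_mono hab
  · rintro (n | k)
    · refine ⟨n + 1, ?_⟩
      rw [Finset.inl_mem_disjSum, Finset.mem_range]
      nlinarith
    · refine ⟨k + 1, ?_⟩
      rw [Finset.inr_mem_disjSum, Finset.mem_range]
      exact Nat.lt_succ_self k

theorem norm_sq_summable (v : H 𝕜) : Summable (fun n : ℕ => ‖ev 𝕜 (Sum.inl n) v‖ ^ 2) := by
  have h : Summable (fun i => ‖v i‖ ^ (2 : ENNReal).toReal) := (lp.memℓp v).summable (by simp)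
  have h2 := h.comp_injective (Sum.inl_injective (α := ℕ) (β := ℕ))
  refine h2.congr (fun n => ?_)
  simp [ev_apply]

/-! ### Uniqueness of coefficients -/

theorem coeff_unique (v : E 𝕜) (a : ℕ → 𝕜) (σ : Equiv.Perm ℕ)
    (h : Tendsto (fun N => ∑ i ∈ Finset.range N, a (σ i) • x 𝕜 (σ i)) atTop (𝓝 v)) (m : ℕ) :
    a m = ev 𝕜 (Sum.inl m) (v : H 𝕜) := by
  have h1 : Tendsto (fun N => ev 𝕜 (Sum.inl m)
      ((∑ i ∈ Finset.range N, a (σ i) • x 𝕜 (σ i) : E 𝕜) : H 𝕜)) atTop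
      (𝓝 (ev 𝕜 (Sum.inl m) (v : H 𝕜))) :=
    (((ev 𝕜 (Sum.inl m)).continuous.comp continuous_subtype_val).tendsto v).comp h
  refine tendsto_nhds_unique (tendsto_const_nhds.congr' ?_) h1
  filter_upwards [eventually_gt_atTop (σ.symm m)] with N hN
  simp only [AddSubmonoidClass.coe_finsetSum, Submodule.coe_smul, map_sum, map_smul]
  rw [Finset.sum_eq_single (σ.symm m)]
  · simp [x, ev_xv_inl]
  · intro i _ hi
    have : m ≠ σ i := fun h => hi (by rw [h, Equiv.symm_apply_apply])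
    simp [x, ev_xv_inl, this]
  · intro h
    exact absurd (Finset.mem_range.2 hN) h

theorem isMinimal_x : IsMinimal 𝕜 (x 𝕜) := by
  intro m hm
  have hcl : IsClosed {v : E 𝕜 | ev 𝕜 (Sum.inl m) (v : H 𝕜) = 0} :=
    isClosed_eq ((ev 𝕜 (Sum.inl m)).continuous.comp continuous_subtype_val) continuous_const
  have hsub : (Submodule.span 𝕜 (x 𝕜 '' {n | n ≠ m}) : Set (E 𝕜))
      ⊆ {v : E 𝕜 | ev 𝕜 (Sum.inl m) (v : H 𝕜) = 0} := by
    have : Submodule.span 𝕜 (x 𝕜 '' {n | n ≠ m})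
        ≤ LinearMap.ker ((ev 𝕜 (Sum.inl m)).toLinearMap.comp (E 𝕜).subtype) := by
      rw [Submodule.span_le]
      rintro _ ⟨n, hn, rfl⟩
      have hn' : m ≠ n := fun h => hn h.symm
      simp [x, ev_xv_inl, hn']
    intro v hv
    exact this hv
  have := closure_minimal hsub hcl hm
  simp [x, ev_xv_inl] at this

/-! ### Existence of a good rearrangement -/

theorem sum_getD {V : Type} [AddCommMonoid V] (f : ℕ → V) (l : List ℕ) :
    ∀ m, m ≤ l.length → ∑ j ∈ Finset.range m, f (l.getD j 0) = ((l.take m).map f).sum := by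
  intro m
  induction m with
  | zero => intro _; simp
  | succ m ih =>
    intro hm
    have hm' : m < l.length := hm
    rw [Finset.sum_range_succ, ih (le_of_lt hm'), List.getD_eq_getElem _ _ hm',
      List.take_add_one, List.map_append, List.sum_append, List.getElem?_eq_getElem hm']
    simp

theorem exists_perm (l : ℕ → List ℕ) (hl1 : ∀ k, (l k).Nodup) (hl2 : ∀ k, (l k).toFinset = block k) :
    ∃ σ : Equiv.Perm ℕ, (∀ i, Nat.sqrt (σ i) = Nat.sqrt i) ∧
      ∀ i, σ i = (l (Nat.sqrt i)).getD (i - Nat.sqrt i * Nat.sqrt i) 0 := by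
  have hlen : ∀ k, (l k).length = 2 * k + 1 := by
    intro k
    rw [← card_block, ← hl2 k, List.toFinset_card_of_nodup (hl1 k)]
  have hidx : ∀ i, i - Nat.sqrt i * Nat.sqrt i < (l (Nat.sqrt i)).length := by
    intro i
    rw [hlen]
    have := Nat.lt_succ_sqrt i
    have h2 : (Nat.sqrt i).succ * (Nat.sqrt i).succ
        = Nat.sqrt i * Nat.sqrt i + (2 * Nat.sqrt i + 1) := by
      rw [Nat.succ_eq_add_one]; ring
    omega
  let f : ℕ → ℕ := fun i => (l (Nat.sqrt i)).getD (i - Nat.sqrt i * Nat.sqrt i) 0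
  have hf : ∀ i, f i = (l (Nat.sqrt i))[i - Nat.sqrt i * Nat.sqrt i]'(hidx i) :=
    fun i => List.getD_eq_getElem _ _ (hidx i)
  have hfs : ∀ i, Nat.sqrt (f i) = Nat.sqrt i := by
    intro i
    rw [← mem_block, ← hl2, List.mem_toFinset, hf]
    exact List.getElem_mem _
  have hinj : Function.Injective f := by
    intro i j hij
    have hs : Nat.sqrt i = Nat.sqrt j := by rw [← hfs i, ← hfs j, hij]
    have h1 : (l (Nat.sqrt i))[i - Nat.sqrt i * Nat.sqrt i]'(hidx i)
        = (l (Nat.sqrt i))[j - Nat.sqrt i * Nat.sqrt i]'(by rw [hs]; exact hidx j) := by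
      have h2 := hf j
      rw [← hf i, hij, h2]
      congr 1 <;> rw [hs]
    rw [(hl1 _).getElem_inj_iff] at h1
    have h3 := Nat.sqrt_le i
    have h4 := Nat.sqrt_le j
    rw [← hs] at h4
    omega
  have hsurj : Function.Surjective f := by
    intro n
    have hn : n ∈ l (Nat.sqrt n) := by
      rw [← List.mem_toFinset, hl2, mem_block]
    obtain ⟨j, hj, hjn⟩ := List.getElem_of_mem hn
    have hj' : j ≤ Nat.sqrt n + Nat.sqrt n := by
      have := hlen (Nat.sqrt n)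
      omega
    have hsq := Nat.sqrt_add_eq (Nat.sqrt n) hj'
    refine ⟨Nat.sqrt n * Nat.sqrt n + j, ?_⟩
    show (l (Nat.sqrt (Nat.sqrt n * Nat.sqrt n + j))).getD _ 0 = n
    rw [hsq, Nat.add_sub_cancel_left, List.getD_eq_getElem _ _ hj, hjn]
  exact ⟨Equiv.ofBijective f ⟨hinj, hsurj⟩, hfs, fun i => rfl⟩

theorem exists_rearrangement (v : H 𝕜) (hv : v ∈ E 𝕜) :
    ∃ σ : Equiv.Perm ℕ, Tendsto (fun N => ∑ i ∈ Finset.range N,
      ev 𝕜 (Sum.inl (σ i)) v • xv 𝕜 (σ i)) atTop (𝓝 v) := by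
  set u : ℕ → H 𝕜 := fun n => ev 𝕜 (Sum.inl n) v • xv 𝕜 n with hu
  -- block quantities
  set s : ℕ → H 𝕜 := fun k => ∑ n ∈ block k, u n with hs
  set T : ℕ → ℝ := fun k => ∑ n ∈ block k, ‖u n‖ ^ 2 with hT
  have hTnn : ∀ k, 0 ≤ T k := fun k => Finset.sum_nonneg (fun _ _ => sq_nonneg _)
  set B : ℕ → ℝ := fun k => (‖s k‖ + Real.sqrt (T k)) ^ 2 + T k with hB
  have hl : ∀ k, ∃ l : List ℕ, l.Nodup ∧ l.toFinset = block k ∧
      ∀ n, ‖((l.take n).map u).sum‖ ^ 2 ≤ B k := by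
    intro k
    obtain ⟨l, h1, h2, h3⟩ := greedy (𝕜 := 𝕜) u (s k) (Real.sqrt (T k)) (B k) _ (block k) 0 rfl
      (by rw [zero_add])
      (by
        intro i hi
        apply Real.le_sqrt_of_sq_le
        exact Finset.single_le_sum (f := fun n => ‖u n‖ ^ 2) (fun _ _ => sq_nonneg _) hi)
      (by
        rw [norm_zero]
        have : 0 ≤ (‖s k‖ + Real.sqrt (T k)) ^ 2 := sq_nonneg _
        simp only [hB, hT]
        simp only [hT] at this
        linarith)
      (le_refl _)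
    exact ⟨l, h1, h2, fun n => by simpa using h3 n⟩
  choose l hl1 hl2 hl3 using hl
  obtain ⟨σ, hσ1, hσ2⟩ := exists_perm l hl1 hl2
  refine ⟨σ, ?_⟩
  have hlen : ∀ k, (l k).length = 2 * k + 1 := by
    intro k
    rw [← card_block, ← hl2 k, List.toFinset_card_of_nodup (hl1 k)]
  -- full blocks
  have hfull : ∀ K, ∑ i ∈ Finset.range (K * K), u (σ i) = ∑ n ∈ Finset.range (K * K), u n := by
    intro K
    refine Finset.sum_equiv σ (fun i => ?_) (fun i _ => rfl)
    rw [Finset.mem_range, Finset.mem_range, ← Nat.sqrt_lt, ← Nat.sqrt_lt, hσ1]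
  -- inside a block
  have hin : ∀ N, ‖∑ i ∈ Finset.Ico (Nat.sqrt N * Nat.sqrt N) N, u (σ i)‖ ^ 2
      ≤ B (Nat.sqrt N) := by
    intro N
    set K := Nat.sqrt N with hK
    have hKN : K * K ≤ N := Nat.sqrt_le N
    have hNK : N - K * K ≤ 2 * K := by
      have := Nat.sqrt_le_add N
      rw [← hK] at this
      omega
    have h1 : ∑ i ∈ Finset.Ico (K * K) N, u (σ i)
        = ∑ j ∈ Finset.range (N - K * K), u ((l K).getD j 0) := by
      rw [Finset.sum_Ico_eq_sum_range]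
      refine Finset.sum_congr rfl (fun j hj => ?_)
      have hj' : j ≤ K + K := by
        have := Finset.mem_range.1 hj
        omega
      rw [hσ2, Nat.sqrt_add_eq K hj', Nat.add_sub_cancel_left]
    rw [h1, sum_getD u (l K) _ (by rw [hlen]; omega)]
    exact hl3 K _
  -- limits
  have hP := tendsto_blocks v hv
  have hs0 : Tendsto s atTop (𝓝 0) := by
    have h1 := (hP.comp (tendsto_add_atTop_nat 1)).sub hP
    rw [sub_self] at h1
    refine h1.congr (fun K => ?_)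
    simp only [Function.comp]
    rw [sum_range_succ_sq, add_sub_cancel_left]
  have hT0 : Tendsto T atTop (𝓝 0) := by
    have hsum := norm_sq_summable v
    have h1 := hsum.hasSum.tendsto_sum_nat
    have hsq : Tendsto (fun K : ℕ => K * K) atTop atTop :=
      tendsto_atTop_mono (fun K => Nat.le_mul_self K) tendsto_id
    have h2 := h1.comp hsq
    have h3 := ((h2.comp (tendsto_add_atTop_nat 1)).sub h2)
    rw [sub_self] at h3
    have h4 : Tendsto (fun K => 4 * ∑ n ∈ block K, ‖ev 𝕜 (Sum.inl n) v‖ ^ 2) atTop (𝓝 0) := by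
      have h5 := h3.const_mul 4
      rw [mul_zero] at h5
      refine h5.congr (fun K => ?_)
      simp only [Function.comp]
      rw [sum_range_succ_sq, add_sub_cancel_left]
    refine squeeze_zero hTnn (fun K => ?_) h4
    rw [Finset.mul_sum]
    refine Finset.sum_le_sum (fun n _ => ?_)
    rw [hu]
    simp only [norm_smul, mul_pow]
    have := norm_xv_le (𝕜 := 𝕜) n
    have h6 : ‖xv 𝕜 n‖ ^ 2 ≤ 4 := by nlinarith [norm_nonneg (xv 𝕜 n)]
    nlinarith [sq_nonneg ‖ev 𝕜 (Sum.inl n) v‖]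
  have hB0 : Tendsto B atTop (𝓝 0) := by
    have h1 : Tendsto (fun k => Real.sqrt (T k)) atTop (𝓝 0) := by
      have := (Real.continuous_sqrt.tendsto 0).comp hT0
      rwa [Real.sqrt_zero] at this
    have h2 := ((hs0.norm.add h1).pow 2).add hT0
    simpa using h2
  have hsqrt : Tendsto Nat.sqrt atTop atTop := by
    rw [tendsto_atTop_atTop]
    intro b
    exact ⟨b * b, fun a ha => Nat.le_sqrt.2 ha⟩
  have hin0 : Tendsto (fun N => ∑ i ∈ Finset.Ico (Nat.sqrt N * Nat.sqrt N) N, u (σ i))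
      atTop (𝓝 0) := by
    have h1 : Tendsto (fun N => Real.sqrt (B (Nat.sqrt N))) atTop (𝓝 0) := by
      have := (Real.continuous_sqrt.tendsto 0).comp (hB0.comp hsqrt)
      rwa [Real.sqrt_zero] at this
    refine squeeze_zero_norm (fun N => ?_) h1
    exact Real.le_sqrt_of_sq_le (hin N)
  have hfin := (hP.comp hsqrt).add hin0
  rw [add_zero] at hfin
  refine hfin.congr (fun N => ?_)
  simp only [Function.comp]
  have h1 := hfull (Nat.sqrt N)
  simp only [hu] at h1 ⊢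
  rw [← h1, Finset.sum_range_add_sum_Ico _ (Nat.sqrt_le N)]

theorem propertyU_x : PropertyU 𝕜 (x 𝕜) := by
  intro v
  refine ⟨?_, ?_⟩
  · obtain ⟨σ, hσ⟩ := exists_rearrangement (v : H 𝕜) v.2
    refine ⟨fun n => ev 𝕜 (Sum.inl n) (v : H 𝕜), σ, ?_⟩
    rw [tendsto_subtype_rng]
    simpa [x] using hσ
  · intro a b σ π ha hb
    funext m
    rw [coeff_unique v a σ ha m, coeff_unique v b π hb m]

/-! ### No permutation is a basis -/

theorem not_basis (τ : Equiv.Perm ℕ) : ¬ IsSchauderBasis 𝕜 (fun n => x 𝕜 (τ n)) := by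
  intro hbasis
  have : CompleteSpace (E 𝕜) := isClosed_E.completeSpace_coe
  -- the partial sum operators
  let S : ℕ → (E 𝕜 →L[𝕜] E 𝕜) := fun N => ∑ n ∈ Finset.range N,
    ((ev 𝕜 (Sum.inl (τ n))).comp (E 𝕜).subtypeL).smulRight (x 𝕜 (τ n))
  have hS : ∀ N v, S N v = ∑ n ∈ Finset.range N, ev 𝕜 (Sum.inl (τ n)) (v : H 𝕜) • x 𝕜 (τ n) := by
    intro N v
    simp [S]
  have hconv : ∀ v, Tendsto (fun N => S N v) atTop (𝓝 v) := by
    intro v
    obtain ⟨a, ha, -⟩ := hbasis v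
    have h1 : ∀ m, a (τ.symm m) = ev 𝕜 (Sum.inl m) (v : H 𝕜) := by
      intro m
      refine coeff_unique v (fun m => a (τ.symm m)) τ ?_ m
      simpa using ha
    refine ha.congr (fun N => ?_)
    rw [hS]
    refine Finset.sum_congr rfl (fun n _ => ?_)
    rw [← h1, Equiv.symm_apply_apply]
  obtain ⟨C, hC⟩ := banach_steinhaus (g := S) (fun v => by
    obtain ⟨M, hM⟩ := isBounded_iff_forall_norm_le.mp
      (Metric.isBounded_range_of_tendsto _ (hconv v))
    exact ⟨M, fun N => hM _ ⟨N, rfl⟩⟩)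
  have hC0 : 0 ≤ C := (norm_nonneg (S 0)).trans (hC 0)
  obtain ⟨k, hk⟩ := exists_nat_gt (2 * C ^ 2)
  -- a time at which exactly `k` members of block `k` have appeared
  let c : ℕ → ℕ := fun N => ((block k).filter (fun n => τ.symm n < N)).card
  have hc0 : c 0 = 0 := by simp [c]
  have hcstep : ∀ N, c (N + 1) ≤ c N + 1 := by
    intro N
    have : (block k).filter (fun n => τ.symm n < N + 1)
        ⊆ insert (τ N) ((block k).filter (fun n => τ.symm n < N)) := by
      intro n hn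
      rw [Finset.mem_filter] at hn
      rw [Finset.mem_insert, Finset.mem_filter]
      rcases Nat.lt_succ_iff_lt_or_eq.1 hn.2 with h | h
      · exact Or.inr ⟨hn.1, h⟩
      · left
        rw [← h, Equiv.apply_symm_apply]
    exact (Finset.card_le_card this).trans (Finset.card_insert_le _ _)
  have hcbig : ∃ N, k ≤ c N := by
    refine ⟨(block k).sup τ.symm + 1, ?_⟩
    have : (block k).filter (fun n => τ.symm n < (block k).sup τ.symm + 1) = block k := by
      rw [Finset.filter_true_of_mem]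
      intro n hn
      exact Nat.lt_succ_of_le (Finset.le_sup (f := τ.symm) hn)
    simp only [c]
    rw [this, card_block]
    omega
  obtain ⟨N, hN⟩ : ∃ N, c N = k := by
    classical
    have h1 := Nat.find_spec hcbig
    rcases Nat.eq_zero_or_pos (Nat.find hcbig) with h0 | h0
    · rw [h0, hc0] at h1
      exact ⟨0, by rw [hc0]; omega⟩
    · obtain ⟨N', hN'⟩ : ∃ N', Nat.find hcbig = N' + 1 := ⟨Nat.find hcbig - 1, by omega⟩
      have h2 := Nat.find_min hcbig (m := N') (by omega)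
      rw [hN'] at h1
      have h3 := hcstep N'
      exact ⟨N' + 1, by omega⟩
  set A := (block k).filter (fun n => τ.symm n < N) with hA
  have hAcard : A.card = k := hN
  have hA2 : k ≤ (block k \ A).card := by
    rw [Finset.card_sdiff_of_subset (Finset.filter_subset _ _), card_block, hAcard]
    omega
  obtain ⟨A', hA'1, hA'2⟩ := Finset.exists_subset_card_eq hA2
  have hAA' : ∀ n ∈ A', n ∉ A := fun n hn => (Finset.mem_sdiff.1 (hA'1 hn)).2
  have hAb : ∀ n ∈ A, Nat.sqrt n = k := fun n hn => mem_block.1 (Finset.mem_filter.1 hn).1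
  have hA'b : ∀ n ∈ A', Nat.sqrt n = k :=
    fun n hn => mem_block.1 (Finset.mem_sdiff.1 (hA'1 hn)).1
  let v : E 𝕜 := ∑ n ∈ A, x 𝕜 n - ∑ n ∈ A', x 𝕜 n
  have hvc : (v : H 𝕜) = ∑ n ∈ A, xv 𝕜 n - ∑ n ∈ A', xv 𝕜 n := by
    simp [v, x]
  -- partial sum of v
  have hcoef : ∀ m, ev 𝕜 (Sum.inl m) (v : H 𝕜)
      = (if m ∈ A then 1 else 0) - (if m ∈ A' then 1 else 0) := by
    intro m
    rw [hvc, map_sub, map_sum, map_sum]
    simp [ev_xv_inl]
  have hSv : (S N v : H 𝕜) = ∑ n ∈ A, xv 𝕜 n := by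
    rw [hS]
    simp only [AddSubmonoidClass.coe_finsetSum, Submodule.coe_smul, x]
    have h1 : ∀ n ∈ Finset.range N, ev 𝕜 (Sum.inl (τ n)) (v : H 𝕜) • xv 𝕜 (τ n)
        = if τ n ∈ A then xv 𝕜 (τ n) else 0 := by
      intro n hn
      rw [hcoef]
      have hnA' : τ n ∉ A' := by
        intro h
        have h2 := (Finset.mem_sdiff.1 (hA'1 h))
        apply h2.2
        rw [hA, Finset.mem_filter]
        exact ⟨h2.1, by rw [Equiv.symm_apply_apply]; exact Finset.mem_range.1 hn⟩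
      rw [if_neg hnA', sub_zero]
      split_ifs <;> simp
    rw [Finset.sum_congr rfl h1, ← Finset.sum_filter]
    refine Finset.sum_bij' (fun n _ => τ n) (fun n _ => τ.symm n) ?_ ?_ ?_ ?_ ?_
    · intro n hn
      exact (Finset.mem_filter.1 hn).2
    · intro n hn
      rw [Finset.mem_filter, Finset.mem_range, Equiv.apply_symm_apply]
      exact ⟨(Finset.mem_filter.1 hn).2, hn⟩
    · intro n _
      exact Equiv.symm_apply_apply _ _
    · intro n _
      exact Equiv.apply_symm_apply _ _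
    · intro n _
      rfl
  have hlow : (k : ℝ) ≤ ‖S N v‖ := by
    have h1 : ev 𝕜 (Sum.inr k) (S N v : H 𝕜) = (k : 𝕜) := by
      rw [hSv, map_sum]
      rw [Finset.sum_congr rfl (fun n hn => by rw [ev_xv_inr, if_pos (hAb n hn).symm])]
      rw [Finset.sum_const, hAcard, nsmul_eq_mul, mul_one]
    calc (k : ℝ) = ‖ev 𝕜 (Sum.inr k) (S N v : H 𝕜)‖ := by rw [h1]; simp
      _ ≤ ‖(S N v : H 𝕜)‖ := lp.norm_apply_le_norm (by simp) _ _
      _ = ‖S N v‖ := rfl
  have hup : ‖v‖ ^ 2 ≤ 2 * k := by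
    let g : ℕ ⊕ ℕ → 𝕜 := fun i => Sum.elim
      (fun m => (if m ∈ A then (1 : 𝕜) else 0) - (if m ∈ A' then 1 else 0)) (fun _ => 0) i
    have h1 : (v : H 𝕜) = ∑ i ∈ (A ∪ A').map ⟨Sum.inl, Sum.inl_injective⟩, lp.single 2 i (g i) := by
      rw [Finset.sum_map]
      ext j
      have hcs : ∀ (s : Finset ℕ) (w : ℕ → H 𝕜), (∑ n ∈ s, w n : H 𝕜) j = ∑ n ∈ s, w n j := by
        intro s w
        have := lp.coeFn_sum w s
        rw [this]
        simp
      rw [hcs]
      rcases j with m | k'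
      · have h2 := hcoef m
        rw [ev_apply] at h2
        rw [h2]
        simp only [Function.Embedding.coeFn_mk, lp.single_apply, Pi.single_apply, Sum.inl.injEq]
        rw [Finset.sum_ite_eq]
        by_cases hm : m ∈ A ∪ A'
        · rw [if_pos hm]; rfl
        · rw [if_neg hm]
          rw [Finset.mem_union, not_or] at hm
          rw [if_neg hm.1, if_neg hm.2, sub_zero]
      · have h2 : (v : H 𝕜) (Sum.inr k') = 0 := by
          rw [← ev_apply, hvc, map_sub, map_sum, map_sum,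
            Finset.sum_congr rfl (fun n hn => by rw [ev_xv_inr, hAb n hn]),
            Finset.sum_congr (s₁ := A') rfl (fun n hn => by rw [ev_xv_inr, hA'b n hn]),
            Finset.sum_const, Finset.sum_const, hAcard, hA'2, sub_self]
        rw [h2]
        simp [lp.single_apply]
    have h2 := lp.norm_sum_single (p := 2) (E := fun _ : ℕ ⊕ ℕ => 𝕜) (by simp) g
      ((A ∪ A').map ⟨Sum.inl, Sum.inl_injective⟩)
    rw [← h1] at h2
    have h3 : ‖v‖ ^ 2 = ∑ i ∈ (A ∪ A').map ⟨Sum.inl, Sum.inl_injective⟩, ‖g i‖ ^ 2 := by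
      have : ‖v‖ = ‖(v : H 𝕜)‖ := rfl
      rw [this]
      simpa using h2
    rw [h3, Finset.sum_map]
    calc ∑ n ∈ A ∪ A', ‖g (Sum.inl n)‖ ^ 2 ≤ ∑ n ∈ A ∪ A', (1 : ℝ) := by
          refine Finset.sum_le_sum (fun n _ => ?_)
          simp only [g, Sum.elim_inl]
          by_cases h4 : n ∈ A
          · have h5 : n ∉ A' := fun h => hAA' n h h4
            simp [h4, h5]
          · by_cases h5 : n ∈ A' <;> simp [h4, h5]
      _ = ((A ∪ A').card : ℝ) := by simp
      _ ≤ 2 * k := by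
          have := Finset.card_union_le A A'
          rw [hAcard, hA'2] at this
          have h6 : ((A ∪ A').card : ℝ) ≤ ((k + k : ℕ) : ℝ) := by exact_mod_cast this
          push_cast at h6
          linarith
  have hbd : ‖S N v‖ ≤ C * ‖v‖ := (S N).le_of_opNorm_le (hC N) v
  have h7 : (k : ℝ) ^ 2 ≤ C ^ 2 * ‖v‖ ^ 2 := by
    rw [← mul_pow]
    exact pow_le_pow_left₀ (Nat.cast_nonneg k) (hlow.trans hbd) 2
  have hkpos : (0 : ℝ) < k := lt_of_le_of_lt (by positivity) hk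
  have h8 : (k : ℝ) ^ 2 ≤ C ^ 2 * (2 * k) := h7.trans (by gcongr)
  have h9 : (k : ℝ) ≤ 2 * C ^ 2 := by
    have : (k : ℝ) * k ≤ (2 * C ^ 2) * k := by nlinarith
    exact le_of_mul_le_mul_right this hkpos
  linarith

theorem separable_H : TopologicalSpace.SeparableSpace (H 𝕜) := by
  rw [← TopologicalSpace.isSeparable_univ_iff]
  have h1 : TopologicalSpace.IsSeparable
      (Submodule.span 𝕜 (Set.range (fun i : ℕ ⊕ ℕ => (lp.single 2 i (1 : 𝕜) : H 𝕜))) :
        Set (H 𝕜)) :=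
    (Set.countable_range _).isSeparable.span
  refine h1.closure.mono ?_
  intro v _
  have h2 := lp.hasSum_single (p := 2) (by simp) v
  refine mem_closure_of_tendsto h2 (Eventually.of_forall (fun s => ?_))
  refine Submodule.sum_mem _ (fun i _ => ?_)
  have : lp.single 2 i (v i) = (v i) • (lp.single 2 i (1 : 𝕜) : H 𝕜) := by
    rw [← lp.single_smul]
    simp
  rw [this]
  exact Submodule.smul_mem _ _ (Submodule.subset_span ⟨i, rfl⟩)

theorem separable_E : TopologicalSpace.SeparableSpace (E 𝕜) := by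
  have := separable_H (𝕜 := 𝕜)
  have : SecondCountableTopology (H 𝕜) := UniformSpace.secondCountable_of_separable _
  infer_instance

/-- There is a minimal sequence with property (U) in a separable Hilbert space (real or complex)
none of whose permutations is a Schauder basis. -/
theorem result (𝕜 : Type) [RCLike 𝕜] :
    ∃ (E : Type) (_ : NormedAddCommGroup E) (_ : InnerProductSpace 𝕜 E) (_ : CompleteSpace E)
      (_ : TopologicalSpace.SeparableSpace E) (x : ℕ → E),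
      PropertyU 𝕜 x ∧ IsMinimal 𝕜 x ∧
        ∀ τ : Equiv.Perm ℕ, ¬ IsSchauderBasis 𝕜 (fun n => x (τ n)) :=
  ⟨E 𝕜, inferInstance, inferInstance, isClosed_E.completeSpace_coe, separable_E, x 𝕜,
    propertyU_x, isMinimal_x, not_basis⟩

end Pool.Agent.Results.MP_514f39_an.NoPermutedBasis
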